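import Mathlib
import Pool.Agent.Q243.ArrExample

/-!
# Vertex-transitivity of tope graphs and magnitude denominators: odd rank

In every odd rank `r ≥ 5` there is an arrangement whose tope graph is not vertex-transitive and
whose magnitude has a denominator which is not divisible by the `2n`-th cyclotomic polynomial.
The arrangement is the product of four generic planes in `ℝ³` and the coordinate arrangement of
`ℝ^(r-3)`.
-/

namespace Pool.Agent.Results.MP_0e848e_co.OddRankFails

open Pool.Agent.Q243.ArrMag

/-- Disproof of the conjecture in every odd rank at least five. -/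
theorem result : ∀ r : ℕ, Odd r → 5 ≤ r →
    ∃ (κ ι : Type) (_ : Fintype κ) (_ : Fintype ι) (A : Arr κ ι),
      rank A = r ∧ ¬ VertexTransitive (tope A) ∧
        ¬ Polynomial.cyclotomic (2 * Fintype.card ι) ℚ ∣ (mag A).denom := by
  intro r hr h5
  refine ⟨Fin 3 ⊕ Fin (r - 3), Fin 4 ⊕ Fin (r - 3), inferInstance, inferInstance, ex (r - 3),
    ?_, not_vt _, ?_⟩
  · rw [rank_ex]
    omega
  · intro h
    have hcard : Fintype.card (Fin 4 ⊕ Fin (r - 3)) = r + 1 := by
      rw [Fintype.card_sum, Fintype.card_fin, Fintype.card_fin]
      omega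
    rw [hcard] at h
    have h8 := dvd_eight (r - 3) (2 * (r + 1)) (by omega) h
    have hle := Nat.le_of_dvd (by norm_num) h8
    omega

end Pool.Agent.Results.MP_0e848e_co.OddRankFails
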